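import Mathlib

set_option autoImplicit false

open Complex Metric Set Filter Topology ComplexConjugate

namespace Pool.Agent.Results.MP_72b8ed_an.NotDiagonal

/-- `k` is a kernel (positive semidefinite function) on `Ω ⊆ ℂ`. -/
def IsKernelOn (Ω : Set ℂ) (k : ℂ → ℂ → ℂ) : Prop :=
  ∀ (n : ℕ) (z : Fin n → ℂ) (c : Fin n → ℂ), (∀ i, z i ∈ Ω) →
    ∃ r : ℝ, 0 ≤ r ∧ ∑ i, ∑ j, c i * conj (c j) * k (z i) (z j) = (r : ℂ)

/-- The kernel `k` is holomorphic on `Ω`: holomorphic in the first and antiholomorphic in the second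
variable. -/
def IsHolomorphicOn (Ω : Set ℂ) (k : ℂ → ℂ → ℂ) : Prop :=
  (∀ w ∈ Ω, DifferentiableOn ℂ (fun z => k z w) Ω) ∧
  (∀ z ∈ Ω, DifferentiableOn ℂ (fun w => conj (k z w)) Ω)

/-- Near the origin `k(z,w) = ∑ κ_n z^n \bar w^n`, with all `κ_n > 0`. -/
def IsDiagonalWith (k : ℂ → ℂ → ℂ) (κ : ℕ → ℝ) : Prop :=
  (∀ n, 0 < κ n) ∧
  ∀ᶠ p : ℂ × ℂ in 𝓝 (0, 0), HasSum (fun n : ℕ => (κ n : ℂ) * p.1 ^ n * conj p.2 ^ n) (k p.1 p.2)

/-- `ϑ` is the master certificate of the coefficient sequence `κ`. -/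
def IsMasterCertificate (κ ϑ : ℕ → ℝ) : Prop :=
  ϑ 0 = 0 ∧ ϑ 1 = κ 1 ∧
  ∀ b : ℕ, 2 ≤ b → ϑ b = max 0
    (κ b - ∑ u ∈ Finset.Ico 1 b, ϑ u * κ (b - u))

/-- The domain `Ω_ϑ`. -/
def OmegaTheta (ϑ : ℕ → ℝ) : Set ℂ :=
  interior {x : ℂ | BddAbove (Set.range fun b : ℕ => ϑ b * ‖x‖ ^ (2 * b))}

/-- The domain `Ω¹_ϑ`. -/
def OmegaThetaOne (ϑ : ℕ → ℝ) : Set ℂ :=
  {x | x ∈ OmegaTheta ϑ ∧ Summable (fun b : ℕ => ϑ (b + 1) * ‖x‖ ^ (2 * (b + 1))) ∧
    ∑' b : ℕ, ϑ (b + 1) * ‖x‖ ^ (2 * (b + 1)) < 1}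

/-- `s` is a complete Pick kernel on `Ω` normalized at `0`. -/
def IsNormalizedCP (Ω : Set ℂ) (s : ℂ → ℂ → ℂ) : Prop :=
  IsKernelOn Ω s ∧ (∀ z ∈ Ω, s z 0 = 1) ∧ (∀ z ∈ Ω, ∀ w ∈ Ω, s z w ≠ 0) ∧
    IsKernelOn Ω (fun z w => 1 - 1 / s z w)

/-! ### Kernels given by series -/

theorem isKernelOn_of_hasSum {ι : Type*} {Ω : Set ℂ} {k : ℂ → ℂ → ℂ} (φ : ι → ℂ → ℂ) (a : ι → ℝ)
    (ha : ∀ n, 0 ≤ a n)
    (h : ∀ z ∈ Ω, ∀ w ∈ Ω, HasSum (fun n => (a n : ℂ) * (φ n z * conj (φ n w))) (k z w)) :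
    IsKernelOn Ω k := by
  intro n z c hz
  have h1 : HasSum (fun m => ∑ i, ∑ j, c i * conj (c j) * ((a m : ℂ) * (φ m (z i) * conj (φ m (z j)))))
      (∑ i, ∑ j, c i * conj (c j) * k (z i) (z j)) := by
    apply hasSum_sum
    intro i _
    apply hasSum_sum
    intro j _
    exact (h (z i) (hz i) (z j) (hz j)).mul_left _
  have h2 : ∀ m, ∑ i, ∑ j, c i * conj (c j) * ((a m : ℂ) * (φ m (z i) * conj (φ m (z j)))) =
      ((a m * normSq (∑ i, c i * φ m (z i)) : ℝ) : ℂ) := by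
    intro m
    push_cast
    rw [normSq_eq_conj_mul_self, map_sum, Finset.sum_mul_sum, Finset.mul_sum, Finset.sum_comm]
    apply Finset.sum_congr rfl
    intro i _
    rw [Finset.mul_sum]
    apply Finset.sum_congr rfl
    intro j _
    rw [map_mul]
    ring
  simp_rw [h2] at h1
  generalize (∑ i, ∑ j, c i * conj (c j) * k (z i) (z j)) = S at h1 ⊢
  have h3 : S.im = 0 := by
    have := h1.mapL imCLM
    simp only [imCLM_apply, ofReal_im] at this
    exact this.unique hasSum_zero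
  have h4 : 0 ≤ S.re := by
    have := h1.mapL reCLM
    simp only [reCLM_apply, ofReal_re] at this
    exact this.nonneg (fun m => mul_nonneg (ha m) (normSq_nonneg _))
  refine ⟨_, h4, ?_⟩
  apply Complex.ext
  · simp
  · rw [h3]; simp

theorem IsKernelOn.add {Ω : Set ℂ} {k l : ℂ → ℂ → ℂ} (hk : IsKernelOn Ω k) (hl : IsKernelOn Ω l) :
    IsKernelOn Ω (fun z w => k z w + l z w) := by
  intro n z c hz
  obtain ⟨r, hr, hr'⟩ := hk n z c hz
  obtain ⟨t, ht, ht'⟩ := hl n z c hz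
  refine ⟨r + t, add_nonneg hr ht, ?_⟩
  push_cast
  rw [← hr', ← ht', ← Finset.sum_add_distrib]
  apply Finset.sum_congr rfl
  intro i _
  rw [← Finset.sum_add_distrib]
  apply Finset.sum_congr rfl
  intro j _
  ring

theorem IsKernelOn.congr {Ω : Set ℂ} {k l : ℂ → ℂ → ℂ} (hk : IsKernelOn Ω k)
    (h : ∀ z ∈ Ω, ∀ w ∈ Ω, l z w = k z w) : IsKernelOn Ω l := by
  intro n z c hz
  obtain ⟨r, hr, hr'⟩ := hk n z c hz
  refine ⟨r, hr, ?_⟩
  rw [← hr']
  apply Finset.sum_congr rfl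
  intro i _
  apply Finset.sum_congr rfl
  intro j _
  rw [h _ (hz i) _ (hz j)]

/-! ### The example -/

/-- The diagonal kernel. -/
noncomputable def kk (z w : ℂ) : ℂ := (1 + (1 - z * conj w)⁻¹) / 2
/-- The factor `h`. -/
noncomputable def hh (z w : ℂ) : ℂ := (z + z ^ 2) * conj (w + w ^ 2) / 12
/-- The complete Pick kernel. -/
noncomputable def ss (z w : ℂ) : ℂ := kk z w / (1 - hh z w)
/-- Coefficients of `kk`. -/
noncomputable def kap (n : ℕ) : ℝ := if n = 0 then 1 else 1 / 2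
/-- Master certificate of `kk`. -/
noncomputable def the (n : ℕ) : ℝ := if n = 0 then 0 else (1 / 2) ^ n

theorem norm_mul_lt {z w : ℂ} (hz : z ∈ ball (0 : ℂ) 1) (hw : w ∈ ball (0 : ℂ) 1) :
    ‖z * conj w‖ < 1 := by
  rw [mem_ball_zero_iff] at hz hw
  rw [norm_mul, RCLike.norm_conj]
  nlinarith [norm_nonneg z, norm_nonneg w]

theorem one_sub_ne {z w : ℂ} (hz : z ∈ ball (0 : ℂ) 1) (hw : w ∈ ball (0 : ℂ) 1) :
    1 - z * conj w ≠ 0 := by
  intro h
  have h1 : z * conj w = 1 := (sub_eq_zero.mp h).symm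
  have := norm_mul_lt hz hw
  rw [h1] at this
  simp at this

theorem two_sub_ne {z w : ℂ} (hz : z ∈ ball (0 : ℂ) 1) (hw : w ∈ ball (0 : ℂ) 1) :
    2 - z * conj w ≠ 0 := by
  intro h
  have h1 : z * conj w = 2 := (sub_eq_zero.mp h).symm
  have := norm_mul_lt hz hw
  rw [h1] at this
  simp at this
  try norm_num at this

theorem norm_u_le {z : ℂ} (hz : z ∈ ball (0 : ℂ) 1) : ‖z + z ^ 2‖ ≤ 2 := by
  rw [mem_ball_zero_iff] at hz
  calc ‖z + z ^ 2‖ ≤ ‖z‖ + ‖z ^ 2‖ := norm_add_le _ _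
    _ ≤ 1 + 1 := by
        rw [norm_pow]
        have : ‖z‖ ^ 2 ≤ 1 := pow_le_one₀ (norm_nonneg _) hz.le
        linarith
    _ = 2 := by norm_num

theorem norm_hh_lt {z w : ℂ} (hz : z ∈ ball (0 : ℂ) 1) (hw : w ∈ ball (0 : ℂ) 1) :
    ‖hh z w‖ < 1 := by
  rw [hh, norm_div, norm_mul, RCLike.norm_conj]
  have h1 := norm_u_le hz
  have h2 := norm_u_le hw
  have h3 : ‖z + z ^ 2‖ * ‖w + w ^ 2‖ ≤ 2 * 2 :=
    mul_le_mul h1 h2 (norm_nonneg _) (by norm_num)
  have h4 : ‖(12 : ℂ)‖ = 12 := by simp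
  rw [h4, div_lt_one (by norm_num)]
  linarith

theorem one_sub_hh_ne {z w : ℂ} (hz : z ∈ ball (0 : ℂ) 1) (hw : w ∈ ball (0 : ℂ) 1) :
    1 - hh z w ≠ 0 := by
  intro h
  have h1 : hh z w = 1 := (sub_eq_zero.mp h).symm
  have := norm_hh_lt hz hw
  rw [h1] at this
  simp at this

theorem kk_ne {z w : ℂ} (hz : z ∈ ball (0 : ℂ) 1) (hw : w ∈ ball (0 : ℂ) 1) : kk z w ≠ 0 := by
  have h1 := one_sub_ne hz hw
  have h2 := two_sub_ne hz hw
  have : kk z w = (2 - z * conj w) / (2 * (1 - z * conj w)) := by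
    rw [kk]; field_simp
    ring
  rw [this]
  exact div_ne_zero h2 (mul_ne_zero two_ne_zero h1)

theorem kk_hasSum {z w : ℂ} (h : ‖z * conj w‖ < 1) :
    HasSum (fun n : ℕ => (kap n : ℂ) * (z ^ n * conj (w ^ n))) (kk z w) := by
  have h1 : HasSum (fun n : ℕ => (z * conj w) ^ n) (1 - z * conj w)⁻¹ :=
    hasSum_geometric_of_norm_lt_one h
  have h2 : HasSum (fun n : ℕ => if n = 0 then (1 : ℂ) else 0) 1 := hasSum_ite_eq 0 1
  have h3 := (h2.add h1).div_const 2
  refine (h3.congr_fun ?_)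
  intro n
  by_cases hn : n = 0
  · subst hn; simp [kap]
  · simp [kap, hn, mul_pow]
    ring

theorem kk_kernel : IsKernelOn (ball 0 1) kk := by
  apply isKernelOn_of_hasSum (fun (n : ℕ) z => z ^ n) kap
  · intro n
    by_cases hn : n = 0
    · simp [kap, hn]
    · simp [kap, hn]
  · intro z hz w hw
    exact kk_hasSum (norm_mul_lt hz hw)

theorem hh_kernel : IsKernelOn (ball 0 1) hh := by
  apply isKernelOn_of_hasSum (fun (_ : Unit) z => z + z ^ 2) (fun _ => 1 / 12)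
  · intro n; norm_num
  · intro z hz w hw
    have := hasSum_unique (fun _ : Unit => ((1 / 12 : ℝ) : ℂ) * ((z + z ^ 2) * conj (w + w ^ 2)))
    convert this using 1
    simp [hh]
    ring

theorem isKernelOn_of_hasSum_kernels {Ω : Set ℂ} {k : ℂ → ℂ → ℂ} (K : ℕ → ℂ → ℂ → ℂ)
    (hK : ∀ n, IsKernelOn Ω (K n))
    (h : ∀ z ∈ Ω, ∀ w ∈ Ω, HasSum (fun n => K n z w) (k z w)) : IsKernelOn Ω k := by
  intro n z c hz
  choose r hr hr' using fun m => hK m n z c hz
  have h1 : HasSum (fun m => ∑ i, ∑ j, c i * conj (c j) * K m (z i) (z j))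
      (∑ i, ∑ j, c i * conj (c j) * k (z i) (z j)) := by
    apply hasSum_sum
    intro i _
    apply hasSum_sum
    intro j _
    exact (h (z i) (hz i) (z j) (hz j)).mul_left _
  simp_rw [hr'] at h1
  generalize (∑ i, ∑ j, c i * conj (c j) * k (z i) (z j)) = S at h1 ⊢
  have h3 : S.im = 0 := by
    have := h1.mapL imCLM
    simp only [imCLM_apply, ofReal_im] at this
    exact this.unique hasSum_zero
  have h4 : 0 ≤ S.re := by
    have := h1.mapL reCLM
    simp only [reCLM_apply, ofReal_re] at this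
    exact this.nonneg hr
  refine ⟨_, h4, ?_⟩
  apply Complex.ext
  · simp
  · rw [h3]; simp

theorem ss_kernel : IsKernelOn (ball 0 1) ss := by
  apply isKernelOn_of_hasSum_kernels (fun n z w => kk z w * hh z w ^ n)
  · intro n
    apply isKernelOn_of_hasSum (fun (m : ℕ) z => z ^ m * (z + z ^ 2) ^ n)
      (fun m => kap m * (1 / 12) ^ n)
    · intro m
      apply mul_nonneg
      · by_cases hn : m = 0
        · simp [kap, hn]
        · simp [kap, hn]
      · positivity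
    · intro z hz w hw
      have h1 := (kk_hasSum (norm_mul_lt hz hw)).mul_right (hh z w ^ n)
      refine h1.congr_fun ?_
      intro m
      simp only [hh, map_mul, map_pow, map_add, ofReal_mul, ofReal_pow, ofReal_div, ofReal_one,
        ofReal_ofNat]
      rw [one_div, div_eq_mul_inv _ (12 : ℂ), mul_pow _ ((12 : ℂ)⁻¹), mul_pow (z + z ^ 2)]
      ring
  · intro z hz w hw
    have h2 : HasSum (fun n : ℕ => (hh z w) ^ n) (1 - hh z w)⁻¹ :=
      hasSum_geometric_of_norm_lt_one (norm_hh_lt hz hw)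
    have h5 : kk z w * (1 - hh z w)⁻¹ = ss z w := by rw [ss, div_eq_mul_inv]
    rw [← h5]
    exact h2.mul_left _

theorem cp_identity {z w : ℂ} (hz : z ∈ ball (0 : ℂ) 1) (hw : w ∈ ball (0 : ℂ) 1) :
    1 - 1 / ss z w = hh z w + ((z * conj w) / 2 + (z * conj w) ^ 2 / 6 +
      (1 - z) * (1 - conj w) * (z * conj w) ^ 2 / (12 * (2 - z * conj w))) := by
  have h1 := one_sub_ne hz hw
  have h2 := two_sub_ne hz hw
  have h3 := one_sub_hh_ne hz hw
  have hk : kk z w = (2 - z * conj w) / (2 * (1 - z * conj w)) := by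
    rw [kk]; field_simp
    ring
  have h4 : 1 / ss z w = (1 - hh z w) * (2 * (1 - z * conj w)) / (2 - z * conj w) := by
    rw [ss, hk]
    field_simp
  rw [h4, hh]
  simp only [map_add, map_pow]
  field_simp
  ring

theorem cp_kernel : IsKernelOn (ball 0 1) (fun z w => 1 - 1 / ss z w) := by
  have a1 : IsKernelOn (ball 0 1) (fun z w => (z * conj w) / 2) := by
    apply isKernelOn_of_hasSum (fun (_ : Unit) z => z) (fun _ => 1 / 2)
    · intro n; norm_num
    · intro z hz w hw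
      have := hasSum_unique (fun _ : Unit => ((1 / 2 : ℝ) : ℂ) * (z * conj w))
      convert this using 1
      simp
      ring
  have a2 : IsKernelOn (ball 0 1) (fun z w => (z * conj w) ^ 2 / 6) := by
    apply isKernelOn_of_hasSum (fun (_ : Unit) z => z ^ 2) (fun _ => 1 / 6)
    · intro n; norm_num
    · intro z hz w hw
      have := hasSum_unique (fun _ : Unit => ((1 / 6 : ℝ) : ℂ) * (z ^ 2 * conj (w ^ 2)))
      convert this using 1
      simp [mul_pow]
      ring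
  have a3 : IsKernelOn (ball 0 1)
      (fun z w => (1 - z) * (1 - conj w) * (z * conj w) ^ 2 / (12 * (2 - z * conj w))) := by
    apply isKernelOn_of_hasSum (fun (n : ℕ) z => (1 - z) * z ^ (n + 2))
      (fun n => (1 / 24) * (1 / 2) ^ n)
    · intro n; positivity
    · intro z hz w hw
      have hlt : ‖z * conj w / 2‖ < 1 := by
        rw [norm_div]
        have := norm_mul_lt hz hw
        simp only [RCLike.norm_ofNat]
        linarith
      have h1 : HasSum (fun n : ℕ => (z * conj w / 2) ^ n) (1 - z * conj w / 2)⁻¹ :=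
        hasSum_geometric_of_norm_lt_one hlt
      have h2 := h1.mul_left ((1 - z) * (1 - conj w) * (z * conj w) ^ 2 / 24)
      have h3 : (1 - z) * (1 - conj w) * (z * conj w) ^ 2 / 24 * (1 - z * conj w / 2)⁻¹ =
          (1 - z) * (1 - conj w) * (z * conj w) ^ 2 / (12 * (2 - z * conj w)) := by
        have h4 := two_sub_ne hz hw
        have h5 : 1 - z * conj w / 2 = (2 - z * conj w) / 2 := by ring
        rw [h5]
        field_simp
        ring
      rw [h3] at h2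
      refine h2.congr_fun ?_
      intro n
      simp only [map_mul, map_pow, map_sub, map_one, div_pow, mul_pow, ofReal_mul, ofReal_div,
        ofReal_one, ofReal_ofNat, ofReal_pow]
      ring
  refine (hh_kernel.add ((a1.add a2).add a3)).congr ?_
  intro z hz w hw
  exact cp_identity hz hw

theorem kk_diag : IsDiagonalWith kk kap := by
  constructor
  · intro n
    by_cases hn : n = 0
    · simp [kap, hn]
    · simp [kap, hn]
  · have hc : ContinuousAt (fun p : ℂ × ℂ => ‖p.1 * conj p.2‖) (0, 0) := by fun_prop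
    have h0 : ‖((0 : ℂ), (0 : ℂ)).1 * conj ((0 : ℂ), (0 : ℂ)).2‖ < 1 := by simp
    filter_upwards [hc.eventually (gt_mem_nhds h0)] with p hp
    refine (kk_hasSum hp).congr_fun ?_
    intro n
    rw [map_pow]
    ring

theorem the_cert : IsMasterCertificate kap the := by
  refine ⟨by simp [the], by simp [the, kap], ?_⟩
  intro b hb
  have h1 : ∑ u ∈ Finset.Ico 1 b, the u * kap (b - u) = 1 / 2 - (1 / 2) ^ b := by
    have h2 : ∀ u ∈ Finset.Ico 1 b, the u * kap (b - u) = (1 / 2) ^ u * (1 / 2) := by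
      intro u hu
      rw [Finset.mem_Ico] at hu
      have h3 : u ≠ 0 := by omega
      have h4 : b - u ≠ 0 := by omega
      simp [the, kap, h3, h4]
    rw [Finset.sum_congr rfl h2, ← Finset.sum_mul]
    have h5 : ∑ u ∈ Finset.Ico 1 b, ((1 / 2 : ℝ)) ^ u = 1 - 2 * (1 / 2) ^ b := by
      obtain ⟨m, rfl⟩ : ∃ m, b = m + 1 := ⟨b - 1, by omega⟩
      clear hb h2
      induction m with
      | zero => simp
      | succ m ih =>
        rw [Finset.sum_Ico_succ_top (by omega), ih]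
        rw [pow_succ (1 / 2 : ℝ) (m + 1)]
        ring
    rw [h5]
    ring
  have hb0 : b ≠ 0 := by omega
  have h6 : kap b = 1 / 2 := by simp [kap, hb0]
  have h7 : the b = (1 / 2) ^ b := by simp [the, hb0]
  rw [h1, h6, h7]
  have h8 : (1 / 2 : ℝ) - (1 / 2 - (1 / 2) ^ b) = (1 / 2) ^ b := by ring
  rw [h8, max_eq_right (by positivity)]

theorem omega_sub : OmegaThetaOne the ⊆ ball 0 1 := by
  rintro x ⟨-, hs, hlt⟩
  rw [mem_ball_zero_iff]
  by_contra hcon
  push Not at hcon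
  have h1 : HasSum (fun b : ℕ => (1 / 2 : ℝ) / 2 ^ b) 1 := by
    have := hasSum_geometric_two' (1 : ℝ)
    simpa using this
  have h2 : ∑' b : ℕ, (1 / 2 : ℝ) / 2 ^ b ≤ ∑' b : ℕ, the (b + 1) * ‖x‖ ^ (2 * (b + 1)) := by
    apply Summable.tsum_le_tsum _ h1.summable hs
    intro b
    have h3 : (1 / 2 : ℝ) / 2 ^ b = the (b + 1) := by
      simp [the, pow_succ]
      ring
    rw [h3]
    apply le_mul_of_one_le_right
    · simp [the]
    · exact one_le_pow₀ hcon
  rw [h1.tsum_eq] at h2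
  linarith

theorem ss_not_diag : ¬ ∃ κ : ℕ → ℝ, IsDiagonalWith ss κ := by
  rintro ⟨κ, -, hd⟩
  have hcont : Tendsto (fun t : ℝ => ((t : ℂ), (t : ℂ))) (𝓝 0) (𝓝 (0, 0)) := by
    have : Continuous (fun t : ℝ => ((t : ℂ), (t : ℂ))) := by fun_prop
    simpa using this.tendsto 0
  have hcont' : Tendsto (fun t : ℝ => (-(t : ℂ), -(t : ℂ))) (𝓝 0) (𝓝 (0, 0)) := by
    have : Continuous (fun t : ℝ => (-(t : ℂ), -(t : ℂ))) := by fun_prop
    simpa using this.tendsto 0
  have hev := (hcont.eventually hd).and ((hcont'.eventually hd).and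
    (gt_mem_nhds (show (0 : ℝ) < 1 from one_pos)))
  have hev2 : ∀ᶠ t : ℝ in 𝓝[>] 0, False := by
    filter_upwards [nhdsWithin_le_nhds hev, self_mem_nhdsWithin] with t ⟨h1, h2, h3⟩ h4
    have ht0 : 0 < t := h4
    have heq : ss t t = ss (-t) (-t) := by
      refine h1.unique ?_
      refine h2.congr_fun ?_
      intro n
      simp only [map_neg, conj_ofReal]
      rw [mul_assoc, mul_assoc, ← mul_pow, ← mul_pow]
      ring_nf
    have hb1 : (t : ℂ) ∈ ball (0 : ℂ) 1 := by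
      rw [mem_ball_zero_iff, norm_real, Real.norm_eq_abs, abs_of_pos ht0]; exact h3
    have hb2 : (-t : ℂ) ∈ ball (0 : ℂ) 1 := by
      rw [mem_ball_zero_iff, norm_neg, norm_real, Real.norm_eq_abs, abs_of_pos ht0]; exact h3
    have hk : kk (-t) (-t) = kk t t := by
      simp [kk]
    have hkne := kk_ne hb1 hb1
    rw [ss, ss, hk, div_eq_div_iff (one_sub_hh_ne hb1 hb1) (one_sub_hh_ne hb2 hb2)] at heq
    have h5 := mul_left_cancel₀ hkne heq
    simp only [hh, map_add, map_pow, map_neg, conj_ofReal] at h5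
    have h6 : (t : ℂ) ^ 3 = 0 := by linear_combination 3 * h5
    have h7 : (t : ℂ) = 0 := by simpa using h6
    have h8 : t = 0 := by exact_mod_cast h7
    linarith
  have := hev2.exists
  obtain ⟨_, h⟩ := this
  exact h

/-- There is a normalized diagonal holomorphic kernel `k = (1 - h) s` on a domain containing
`Ω¹_ϑ` with `s` a holomorphic normalized complete Pick kernel that is not diagonal. -/
theorem result : ∃ (Ω : Set ℂ) (k h s : ℂ → ℂ → ℂ) (κ ϑ : ℕ → ℝ),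
    IsOpen Ω ∧ IsConnected Ω ∧ (0 : ℂ) ∈ Ω ∧
    IsKernelOn Ω k ∧ IsHolomorphicOn Ω k ∧ IsDiagonalWith k κ ∧ κ 0 = 1 ∧
    IsMasterCertificate κ ϑ ∧ OmegaThetaOne ϑ ⊆ Ω ∧
    IsKernelOn Ω h ∧ IsNormalizedCP Ω s ∧ IsHolomorphicOn Ω s ∧
    (∀ z ∈ Ω, ∀ w ∈ Ω, k z w = (1 - h z w) * s z w) ∧
    ¬ ∃ κ' : ℕ → ℝ, IsDiagonalWith s κ' := by
  have hkz : ∀ w ∈ ball (0 : ℂ) 1, DifferentiableOn ℂ (fun z => kk z w) (ball 0 1) := by
    intro w hw
    have : DifferentiableOn ℂ (fun z => (1 - z * conj w)⁻¹) (ball (0 : ℂ) 1) := by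
      apply DifferentiableOn.inv
      · fun_prop
      · intro z hz; exact one_sub_ne hz hw
    exact (this.const_add 1).div_const 2
  have hsym : ∀ z w, conj (kk z w) = kk w z := by
    intro z w
    have h2 : conj (2 : ℂ) = 2 := Complex.conj_ofNat 2
    simp only [kk, map_div₀, map_add, map_inv₀, map_sub, map_one, map_mul, conj_conj, h2]
    rw [mul_comm (conj z) w]
  have hsymh : ∀ z w, conj (hh z w) = hh w z := by
    intro z w
    have h2 : conj (12 : ℂ) = 12 := Complex.conj_ofNat 12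
    simp only [hh, map_div₀, map_add, map_pow, map_mul, conj_conj, h2]
    ring
  have hsyms : ∀ z w, conj (ss z w) = ss w z := by
    intro z w
    rw [ss, ss, map_div₀, hsym, map_sub, hsymh, map_one]
  have hsz : ∀ w ∈ ball (0 : ℂ) 1, DifferentiableOn ℂ (fun z => ss z w) (ball 0 1) := by
    intro w hw
    have h1 : DifferentiableOn ℂ (fun z => 1 - hh z w) (ball (0 : ℂ) 1) := by
      simp only [hh]
      fun_prop
    exact (hkz w hw).div h1 (fun z hz => one_sub_hh_ne hz hw)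
  refine ⟨ball 0 1, kk, hh, ss, kap, the, isOpen_ball,
    ⟨⟨0, mem_ball_self one_pos⟩, (convex_ball (0 : ℂ) 1).isPreconnected⟩, mem_ball_self one_pos,
    kk_kernel, ⟨hkz, ?_⟩, kk_diag, by simp [kap], the_cert, omega_sub, hh_kernel,
    ⟨ss_kernel, ?_, ?_, cp_kernel⟩, ⟨hsz, ?_⟩, ?_, ss_not_diag⟩
  · intro z hz
    simp_rw [hsym]
    exact hkz z hz
  · intro z _
    simp [ss, hh, kk]
  · intro z hz w hw
    exact div_ne_zero (kk_ne hz hw) (one_sub_hh_ne hz hw)
  · intro z hz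
    simp_rw [hsyms]
    exact hsz z hz
  · intro z hz w hw
    rw [ss, mul_div_cancel₀ _ (one_sub_hh_ne hz hw)]

end Pool.Agent.Results.MP_72b8ed_an.NotDiagonal
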